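import Mathlib

set_option autoImplicit false

namespace Pool.Agent.Lib.MP_db9acb_an

/-- The data of an orbit in the variables `u = C x` and `q`. -/
structure Orb (C k : ℝ) (u q : ℕ → ℝ) : Prop where
  hC : 0 < C
  hk0 : 0 < k
  hk1 : k < 1
  hu : ∀ n, 0 < u n
  hql : ∀ n, k ≤ q n
  hqu : ∀ n, q n ≤ 1
  h1 : ∀ n, u (n + 2) * u n = q (n + 1) * u (n + 1)
  h2 : ∀ n, q (n + 1) * (q n + C * u (n + 1)) = k + C * u (n + 1)
  h5 : ∀ n, (1 - q n) * (C * u n) ≤ 1

variable {C k : ℝ} {u q : ℕ → ℝ}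

theorem Orb.hq0 (h : Orb C k u q) (n : ℕ) : 0 < q n := lt_of_lt_of_le h.hk0 (h.hql n)

theorem Orb.h3 (h : Orb C k u q) (n : ℕ) : u (n + 3) * u n = q (n + 2) * q (n + 1) := by
  have e1 := h.h1 n
  have e2 := h.h1 (n + 1)
  have p0 := h.hu n
  have p1 := h.hu (n + 1)
  have p2 := h.hu (n + 2)
  have e3 : (u (n + 3) * u n) * (u (n + 1) * u (n + 2)) =
      (q (n + 2) * q (n + 1)) * (u (n + 1) * u (n + 2)) := by
    calc (u (n + 3) * u n) * (u (n + 1) * u (n + 2)) =
        (u (n + 1 + 2) * u (n + 1)) * (u (n + 2) * u n) := by ring_nf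
      _ = (q (n + 1 + 1) * u (n + 1 + 1)) * (q (n + 1) * u (n + 1)) := by rw [e1, e2]
      _ = _ := by ring_nf
  exact mul_right_cancel₀ (by positivity) e3

theorem Orb.hqq (h : Orb C k u q) (n : ℕ) : k ≤ q (n + 1) * q n := by
  have e := h.h2 n
  have h1 := h.hqu (n + 1)
  have h2 : 0 ≤ C * u (n + 1) * (1 - q (n + 1)) :=
    mul_nonneg (mul_pos h.hC (h.hu _)).le (by linarith)
  nlinarith

theorem Orb.hqq1 (h : Orb C k u q) (n : ℕ) : q (n + 1) * q n ≤ 1 := by
  have h1 := h.hqu (n + 1)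
  have h2 := h.hqu n
  have h3 := h.hq0 (n + 1)
  have h4 := h.hq0 n
  nlinarith

/-- The Lyapunov function. -/
noncomputable def Z (k : ℝ) (u q : ℕ → ℝ) (n : ℕ) : ℝ :=
  u (n + 1) + u n + u n / u (n + 1) + q n / u (n + 1) + k / (q n * u n) + u (n + 1) / u n

noncomputable def P (u q : ℕ → ℝ) (n : ℕ) : ℝ := (1 - q (n + 1)) / q (n + 1) * u n

noncomputable def R (C : ℝ) (u q : ℕ → ℝ) (n : ℕ) : ℝ :=
  (1 - q (n + 1)) / q (n + 1) * u (n + 2) * (1 - C / q n)

noncomputable def L (C : ℝ) (q : ℕ → ℝ) (n : ℕ) : ℝ := C * (1 - q (n + 1)) / q (n + 1)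

theorem Orb.Z_succ (h : Orb C k u q) (n : ℕ) :
    Z k u q (n + 1) - Z k u q n = P u q n - R C u q n - L C q n := by
  have p0 := (h.hu n).ne'
  have p1 := (h.hu (n + 1)).ne'
  have q0 := (h.hq0 n).ne'
  have q1 := (h.hq0 (n + 1)).ne'
  have e1 : u (n + 2) = q (n + 1) * u (n + 1) / u n := by
    rw [eq_div_iff p0]; exact h.h1 n
  have e2 : k = q (n + 1) * (q n + C * u (n + 1)) - C * u (n + 1) := by
    have := h.h2 n
    linarith
  simp only [Z, P, R, L]
  rw [show n + 1 + 1 = n + 2 from rfl, e1]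
  rw [e2]
  field_simp
  ring

theorem Orb.P_nonneg (h : Orb C k u q) (n : ℕ) : 0 ≤ P u q n := by
  have := h.hqu (n + 1)
  have := h.hq0 (n + 1)
  have := h.hu n
  unfold P
  apply mul_nonneg (div_nonneg (by linarith) (by linarith)) (by linarith)

theorem Orb.P_le (h : Orb C k u q) (n : ℕ) : P u q n ≤ u n / k := by
  have h1 := h.hql (n + 1)
  have h2 := h.hq0 (n + 1)
  have h3 := h.hu n
  have hk := h.hk0
  unfold P
  rw [div_mul_eq_mul_div, div_le_div_iff₀ h2 hk]
  have : (1 - q (n + 1)) * u n ≤ u n := by nlinarith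
  nlinarith

theorem Orb.L_le (h : Orb C k u q) (n : ℕ) : L C q n ≤ C / k := by
  have h1 := h.hql (n + 1)
  have h2 := h.hq0 (n + 1)
  have hC := h.hC
  have hk := h.hk0
  unfold L
  rw [div_le_div_iff₀ h2 hk]
  have : C * (1 - q (n + 1)) ≤ C := by nlinarith
  nlinarith

/-- The key estimate. -/
theorem Orb.key (h : Orb C k u q) (n : ℕ) :
    k * ((1 - k) * C / 2) / (u (n + 3) * (u (n + 1) + C)) -
      (C ^ 2 / k + (1 / (C ^ 2 * k) + C / k + C ^ 2) / C) ≤ P u q n - R C u q (n + 3) := by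
  have hC := h.hC
  have hk := h.hk0
  have hk1 := h.hk1
  set q0 := q n with hq0
  set q1 := q (n + 1) with hq1
  set q2 := q (n + 2) with hq2
  set q3 := q (n + 3) with hq3
  set q4 := q (n + 4) with hq4
  set u0 := u n with hu0
  set v := u (n + 1) with hv
  set t := u (n + 2) with ht
  set w := u (n + 3) with hw
  set s := u (n + 4) with hs
  set u5 := u (n + 5) with hu5
  have pu0 : 0 < u0 := h.hu n
  have pv : 0 < v := h.hu _
  have pt : 0 < t := h.hu _
  have pw : 0 < w := h.hu _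
  have ps : 0 < s := h.hu _
  have pu5 : 0 < u5 := h.hu _
  have pq0 : 0 < q0 := h.hq0 _
  have pq1 : 0 < q1 := h.hq0 _
  have pq2 : 0 < q2 := h.hq0 _
  have pq3 : 0 < q3 := h.hq0 _
  have pq4 : 0 < q4 := h.hq0 _
  have lq2 : k ≤ q2 := h.hql _
  have lq1 : k ≤ q1 := h.hql _
  have bq0 : q0 ≤ 1 := h.hqu _
  have bq1 : q1 ≤ 1 := h.hqu _
  have bq2 : q2 ≤ 1 := h.hqu _
  have bq3 : q3 ≤ 1 := h.hqu _
  have bq4 : q4 ≤ 1 := h.hqu _
  have ea : q1 * (q0 + C * v) = k + C * v := h.h2 n
  have eb : q2 * (q1 + C * t) = k + C * t := h.h2 (n + 1)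
  have eb' : w * v = q2 * t := h.h1 (n + 1)
  have ec : q3 * (q2 + C * w) = k + C * w := h.h2 (n + 2)
  have ed : q4 * (q3 + C * s) = k + C * s := h.h2 (n + 3)
  have ed' : s * v = q3 * q2 := h.h3 (n + 1)
  have ee : w * u0 = q2 * q1 := h.h3 n
  have ef : u5 * w = q4 * s := h.h1 (n + 3)
  have e5 : (1 - q0) * (C * u0) ≤ 1 := h.h5 n
  have eqq : k ≤ q2 * q1 := h.hqq (n + 1)
  -- `P` and `R`
  have hP : P u q n = (1 - q1) * q2 / w := by
    have : u0 = q2 * q1 / w := by rw [eq_div_iff pw.ne']; linarith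
    unfold P
    rw [← hq1, ← hu0, this]
    field_simp
  have hvq : 0 < v + C * q2 := by positivity
  have hR : R C u q (n + 3) = q2 / w * ((q3 - k) * (q3 - C) / q3 / (v + C * q2)) := by
    have e1 : u5 = q4 * s / w := by rw [eq_div_iff pw.ne']; exact ef
    have e2 : (1 - q4) * (q3 + C * s) = q3 - k := by linarith
    have e3 : 0 < q3 + C * s := by positivity
    have e4 : (1 - q4) = (q3 - k) / (q3 + C * s) := by
      rw [eq_div_iff e3.ne']; exact e2
    have e5 : s = q3 * q2 / v := by rw [eq_div_iff pv.ne']; exact ed'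
    unfold R
    rw [show n + 3 + 1 = n + 4 from rfl, show n + 3 + 2 = n + 5 from rfl, ← hq4, ← hq3, ← hu5,
      e1]
    have e6 : (1 - q4) / q4 * (q4 * s / w) * (1 - C / q3) = (1 - q4) * s * (q3 - C) / (q3 * w) := by
      field_simp
    rw [e6, e4]
    have e7 : (q3 - k) / (q3 + C * s) * s = (q3 - k) * q2 / (v + C * q2) := by
      rw [div_mul_eq_mul_div, div_eq_div_iff e3.ne' hvq.ne']
      have : s * v + C * q2 * s = q2 * (q3 + C * s) := by linarith
      linear_combination (q3 - k) * this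
    rw [e7]
    field_simp
  -- the bracket
  set N := (1 - q1) * (v + C * q2) - (q3 - k) * (q3 - C) / q3 with hN
  have hPR : P u q n - R C u q (n + 3) = q2 / w * (N / (v + C * q2)) := by
    rw [hP, hR, hN]
    field_simp
  have f1 : (1 - q1) * v = (q1 * q0 - k) / C := by
    rw [eq_div_iff hC.ne']
    linarith
  have f2 : k / q3 ≤ q2 + C * w := by
    rw [div_le_iff₀ pq3]
    have : 0 < C * w := by positivity
    linarith
  have f3 : q2 * q1 ≤ k + C / k * w * v := by
    have e1 : q2 * q1 = k + C * t * (1 - q2) := by linarith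
    have e2 : C * t * (1 - q2) ≤ C * t :=
      mul_le_of_le_one_right (mul_pos hC pt).le (by linarith)
    have e3 : t ≤ w * v / k := by
      rw [le_div_iff₀ hk, eb', mul_comm]
      exact mul_le_mul_of_nonneg_right lq2 pt.le
    have e4 : C * t ≤ C * (w * v / k) := mul_le_mul_of_nonneg_left e3 hC.le
    have e5 : C * (w * v / k) = C / k * w * v := by ring
    linarith
  have f4 : q3 ≤ q1 + C / k * w := by
    have e1 : q3 * q1 * (q2 + C * w) = q1 * (k + C * w) := by linear_combination q1 * ec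
    have e2 : q3 * k ≤ q3 * (q2 * q1) := mul_le_mul_of_nonneg_left eqq pq3.le
    have e3 : q3 * k ≤ q1 * k + C * w := by
      have i1 : 0 ≤ q3 * q1 * (C * w) := by positivity
      have i2 : q1 * (C * w) ≤ C * w := mul_le_of_le_one_left (mul_pos hC pw).le bq1
      have i3 : q3 * (q2 * q1) = q3 * q1 * (q2 + C * w) - q3 * q1 * (C * w) := by ring
      have i4 : q1 * (k + C * w) = q1 * k + q1 * (C * w) := by ring
      linarith
    have e4 : q3 ≤ (q1 * k + C * w) / k := by
      rw [le_div_iff₀ hk]; exact e3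
    have e5 : (q1 * k + C * w) / k = q1 + C / k * w := by field_simp
    linarith
  have f5 : q1 * q0 ≥ q1 - w / (C * k) := by
    -- `1 - q0 ≤ w / (C k)`
    have e1 : 1 - q0 ≤ w / (C * k) := by
      rw [le_div_iff₀ (by positivity)]
      have e2 : (1 - q0) * (C * k) ≤ (1 - q0) * (C * (q2 * q1)) := by
        apply mul_le_mul_of_nonneg_left _ (by linarith)
        exact mul_le_mul_of_nonneg_left eqq hC.le
      have e3 : (1 - q0) * (C * (q2 * q1)) = ((1 - q0) * (C * u0)) * w := by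
        rw [← ee]; ring
      have e4 : ((1 - q0) * (C * u0)) * w ≤ 1 * w := mul_le_mul_of_nonneg_right e5 pw.le
      linarith
    have e6 : q1 * (1 - q0) ≤ 1 - q0 := mul_le_of_le_one_left (by linarith) bq1
    have e7 : q1 * q0 = q1 - q1 * (1 - q0) := by ring
    linarith
  have f6 : (1 - k) * C / 2 ≤ (q1 - k) * (1 / C - 1) + C * (1 - k) := by
    rcases le_or_gt C 1 with hc | hc
    · have e1 : 0 ≤ 1 / C - 1 := by
        rw [sub_nonneg, le_div_iff₀ hC]; linarith
      have e2 : 0 ≤ (q1 - k) * (1 / C - 1) := mul_nonneg (by linarith) e1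
      have e3 : 0 < C * (1 - k) := mul_pos hC (by linarith)
      linarith
    · have e1 : 1 / C - 1 ≤ 0 := by
        rw [sub_nonpos, div_le_iff₀ hC]; linarith
      have e2 : (1 - k) * (1 / C - 1) ≤ (q1 - k) * (1 / C - 1) :=
        mul_le_mul_of_nonpos_right (by linarith) e1
      have e3 : 0 ≤ 1 / C - 1 + C / 2 := by
        have : 1 / C - 1 + C / 2 = ((C - 1) ^ 2 + 1) / (2 * C) := by
          field_simp
          ring
        rw [this]
        positivity
      have e4 : 0 ≤ (1 - k) * (1 / C - 1 + C / 2) := mul_nonneg (by linarith) e3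
      have e5 : (1 - k) * (1 / C - 1 + C / 2) = (1 - k) * (1 / C - 1) + C * (1 - k)
        - (1 - k) * C / 2 := by ring
      linarith
  have f7 : (1 - k) * C / 2 - C ^ 2 / k * w * v - (1 / (C ^ 2 * k) + C / k + C ^ 2) * w ≤ N := by
    have e1 : N = (q1 * q0 - k) / C + C * q2 - C * (q2 * q1) - q3 + k + C - C * (k / q3) := by
      rw [hN, mul_add, f1]
      field_simp
      ring
    have e2 : (q1 - w / (C * k) - k) / C ≤ (q1 * q0 - k) / C := by
      apply div_le_div_of_nonneg_right _ hC.le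
      linarith
    have e3 : C * (q2 * q1) ≤ C * (k + C / k * w * v) := mul_le_mul_of_nonneg_left f3 hC.le
    have e4 : C * (k / q3) ≤ C * (q2 + C * w) := mul_le_mul_of_nonneg_left f2 hC.le
    have e5 : (q1 - w / (C * k) - k) / C + C * q2 - C * (k + C / k * w * v) - (q1 + C / k * w)
        + k + C - C * (q2 + C * w) = (q1 - k) * (1 / C - 1) + C * (1 - k)
        - C ^ 2 / k * w * v - (1 / (C ^ 2 * k) + C / k + C ^ 2) * w := by
      field_simp
      ring
    linarith
  rw [hPR]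
  -- final estimate
  have g1 : q2 / w * (((1 - k) * C / 2 - C ^ 2 / k * w * v -
      (1 / (C ^ 2 * k) + C / k + C ^ 2) * w) / (v + C * q2)) ≤ q2 / w * (N / (v + C * q2)) := by
    apply mul_le_mul_of_nonneg_left _ (by positivity)
    exact div_le_div_of_nonneg_right f7 hvq.le
  have g2 : q2 / w * (((1 - k) * C / 2 - C ^ 2 / k * w * v -
      (1 / (C ^ 2 * k) + C / k + C ^ 2) * w) / (v + C * q2)) =
      (1 - k) * C / 2 / w * (q2 / (v + C * q2)) - C ^ 2 / k * (q2 * v / (v + C * q2)) -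
      (1 / (C ^ 2 * k) + C / k + C ^ 2) * (q2 / (v + C * q2)) := by
    field_simp
  have g3 : k * ((1 - k) * C / 2) / (w * (v + C)) ≤ (1 - k) * C / 2 / w * (q2 / (v + C * q2)) := by
    have e1 : k / (v + C) ≤ q2 / (v + C * q2) := by
      rw [div_le_div_iff₀ (by positivity) hvq]
      have i1 : k * v ≤ q2 * v := mul_le_mul_of_nonneg_right lq2 pv.le
      have i2 : k * (C * q2) ≤ 1 * (C * q2) :=
        mul_le_mul_of_nonneg_right hk1.le (mul_pos hC pq2).le
      have i3 : k * (v + C * q2) = k * v + k * (C * q2) := by ring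
      have i4 : q2 * (v + C) = q2 * v + 1 * (C * q2) := by ring
      linarith
    have e2 : k * ((1 - k) * C / 2) / (w * (v + C)) = (1 - k) * C / 2 / w * (k / (v + C)) := by
      field_simp
    rw [e2]
    apply mul_le_mul_of_nonneg_left e1
    have : 0 < 1 - k := by linarith
    positivity
  have g4 : C ^ 2 / k * (q2 * v / (v + C * q2)) ≤ C ^ 2 / k := by
    have e1 : q2 * v / (v + C * q2) ≤ 1 := by
      rw [div_le_one hvq]
      have i1 : 0 < C * q2 := by positivity
      have i2 : q2 * v ≤ v := mul_le_of_le_one_left pv.le bq2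
      linarith
    exact mul_le_of_le_one_right (by positivity) e1
  have g5 : (1 / (C ^ 2 * k) + C / k + C ^ 2) * (q2 / (v + C * q2)) ≤
      (1 / (C ^ 2 * k) + C / k + C ^ 2) / C := by
    have e1 : q2 / (v + C * q2) ≤ 1 / C := by
      rw [div_le_div_iff₀ hvq hC]
      have i1 : q2 * C = C * q2 := by ring
      linarith
    calc (1 / (C ^ 2 * k) + C / k + C ^ 2) * (q2 / (v + C * q2)) ≤
        (1 / (C ^ 2 * k) + C / k + C ^ 2) * (1 / C) := by
          apply mul_le_mul_of_nonneg_left e1; positivity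
      _ = _ := by ring
  linarith

end Pool.Agent.Lib.MP_db9acb_an
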