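import Mathlib
import Pool.Agent.Lib.MP_db9acb_an.Basic

set_option autoImplicit false

namespace Pool.Agent.Lib.MP_db9acb_an

variable {C k : ℝ} {u q : ℕ → ℝ}

/-- The delayed Lyapunov function. -/
noncomputable def Y (k : ℝ) (u q : ℕ → ℝ) (n : ℕ) : ℝ :=
  Z k u q (n + 3) - P u q (n + 2) - P u q (n + 1) - P u q n

/-- Gain constant. -/
noncomputable def κ (C k : ℝ) : ℝ := k * ((1 - k) * C / 2)

/-- Loss constant. -/
noncomputable def K (C k : ℝ) : ℝ :=
  C ^ 2 / k + (1 / (C ^ 2 * k) + C / k + C ^ 2) / C + C / k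

theorem Orb.κ_pos (h : Orb C k u q) : 0 < κ C k := by
  have := h.hC
  have := h.hk0
  have : 0 < 1 - k := by linarith [h.hk1]
  unfold κ
  positivity

theorem Orb.K_pos (h : Orb C k u q) : 0 < K C k := by
  have := h.hC
  have := h.hk0
  unfold K
  positivity

theorem Orb.Y_succ (h : Orb C k u q) (n : ℕ) :
    Y k u q n + κ C k / (u (n + 3) * (u (n + 1) + C)) - K C k ≤ Y k u q (n + 1) := by
  have e1 := h.Z_succ (n + 3)
  have e2 := h.key n
  have e3 := h.L_le (n + 3)
  unfold Y κ K
  rw [show n + 1 + 3 = n + 3 + 1 from rfl, show n + 1 + 2 = n + 3 from rfl,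
    show n + 1 + 1 = n + 2 from rfl]
  linarith

theorem Orb.Y_mono (h : Orb C k u q) (n : ℕ) : Y k u q n - K C k ≤ Y k u q (n + 1) := by
  have e1 := h.Y_succ n
  have e2 : 0 < κ C k / (u (n + 3) * (u (n + 1) + C)) := by
    have := h.κ_pos
    have := h.hu (n + 3)
    have := h.hu (n + 1)
    have := h.hC
    positivity
  linarith

theorem Orb.Y_mono_add (h : Orb C k u q) (n m : ℕ) :
    Y k u q n - m * K C k ≤ Y k u q (n + m) := by
  induction m with
  | zero => simp
  | succ m ih =>
    have := h.Y_mono (n + m)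
    rw [← add_assoc]
    push_cast
    linarith

/-- Two consecutive steps after a large value give a definite gain. -/
theorem Orb.gain (h : Orb C k u q) (n : ℕ) (hU : 1 ≤ u n) :
    Y k u q n - 2 * K C k + κ C k * (Real.sqrt (u n) / (1 + C)) ≤ Y k u q (n + 2) := by
  have hC := h.hC
  have hκ := h.κ_pos
  have e1 := h.Y_succ n
  have e2 := h.Y_succ (n + 1)
  rw [show n + 1 + 1 = n + 2 from rfl, show n + 1 + 3 = n + 4 from rfl] at e2
  set U := u n with hUdef
  set a := u (n + 1) with ha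
  have pU : 0 < U := by linarith
  have pa : 0 < a := h.hu _
  have p3 : 0 < u (n + 3) := h.hu _
  have p2 : 0 < u (n + 2) := h.hu _
  have p4 : 0 < u (n + 4) := h.hu _
  set r := Real.sqrt U with hr
  have hr2 : r * r = U := Real.mul_self_sqrt pU.le
  have hr1 : 1 ≤ r := by
    rw [hr, Real.one_le_sqrt]; exact hU
  have hrU : r ≤ U := by nlinarith
  -- `u (n+3) ≤ 1 / U`
  have f1 : u (n + 3) * U ≤ 1 := by
    have := h.h3 n
    rw [this]; exact h.hqq1 (n + 1)
  have f2 : u (n + 4) * a ≤ 1 := by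
    have := h.h3 (n + 1)
    rw [show n + 1 + 3 = n + 4 from rfl] at this
    rw [this]; exact h.hqq1 (n + 2)
  have f3 : u (n + 2) * U ≤ a := by
    have := h.h1 n
    rw [this]
    exact mul_le_of_le_one_left pa.le (h.hqu _)
  have pos1 : 0 < κ C k / (u (n + 3) * (a + C)) := by positivity
  have pos2 : 0 < κ C k / (u (n + 4) * (u (n + 2) + C)) := by positivity
  rcases le_or_gt a r with hc | hc
  · have g1 : κ C k * (r / (1 + C)) ≤ κ C k / (u (n + 3) * (a + C)) := by
      rw [mul_div_assoc', div_le_div_iff₀ (by positivity) (by positivity)]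
      have i1 : r * (u (n + 3) * (a + C)) ≤ 1 + C := by
        have i2 : a + C ≤ r * (1 + C) := by nlinarith
        calc r * (u (n + 3) * (a + C)) ≤ r * (u (n + 3) * (r * (1 + C))) := by
              apply mul_le_mul_of_nonneg_left _ (by linarith)
              exact mul_le_mul_of_nonneg_left i2 p3.le
          _ = (u (n + 3) * (r * r)) * (1 + C) := by ring
          _ = (u (n + 3) * U) * (1 + C) := by rw [hr2]
          _ ≤ 1 * (1 + C) := mul_le_mul_of_nonneg_right f1 (by linarith)
          _ = 1 + C := one_mul _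
      calc κ C k * r * (u (n + 3) * (a + C)) = κ C k * (r * (u (n + 3) * (a + C))) := by ring
        _ ≤ κ C k * (1 + C) := mul_le_mul_of_nonneg_left i1 hκ.le
    linarith
  · have g1 : κ C k * (r / (1 + C)) ≤ κ C k / (u (n + 4) * (u (n + 2) + C)) := by
      rw [mul_div_assoc', div_le_div_iff₀ (by positivity) (by positivity)]
      have i1 : r * (u (n + 4) * (u (n + 2) + C)) ≤ 1 + C := by
        have i2 : r * u (n + 2) ≤ a := by
          calc r * u (n + 2) ≤ U * u (n + 2) := mul_le_mul_of_nonneg_right hrU p2.le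
            _ ≤ a := by linarith
        have i3 : r * (u (n + 2) + C) ≤ a * (1 + C) := by nlinarith
        calc r * (u (n + 4) * (u (n + 2) + C)) = u (n + 4) * (r * (u (n + 2) + C)) := by ring
          _ ≤ u (n + 4) * (a * (1 + C)) := mul_le_mul_of_nonneg_left i3 p4.le
          _ = (u (n + 4) * a) * (1 + C) := by ring
          _ ≤ 1 * (1 + C) := mul_le_mul_of_nonneg_right f2 (by linarith)
          _ = 1 + C := one_mul _
      calc κ C k * r * (u (n + 4) * (u (n + 2) + C)) =
          κ C k * (r * (u (n + 4) * (u (n + 2) + C))) := by ring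
        _ ≤ κ C k * (1 + C) := mul_le_mul_of_nonneg_left i1 hκ.le
    linarith

/-- `Z` is controlled by the next six values of `u`. -/
theorem Orb.Z_le (h : Orb C k u q) (m : ℕ) {B : ℝ} (hB : ∀ j ∈ Finset.Icc 1 6, u (m + j) ≤ B) :
    Z k u q m ≤ 6 * B / k := by
  have hk := h.hk0
  have b1 : u (m + 1) ≤ B := hB 1 (by decide)
  have b2 : u (m + 2) ≤ B := hB 2 (by decide)
  have b3 : u (m + 3) ≤ B := hB 3 (by decide)
  have b4 : u (m + 4) ≤ B := hB 4 (by decide)
  have b5 : u (m + 5) ≤ B := hB 5 (by decide)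
  have b6 : u (m + 6) ≤ B := hB 6 (by decide)
  have p0 := h.hu m
  have p1 := h.hu (m + 1)
  have p2 := h.hu (m + 2)
  have p3 := h.hu (m + 3)
  have p4 := h.hu (m + 4)
  have hBpos : 0 < B := lt_of_lt_of_le p1 b1
  -- `1 / u j ≤ u (j+3) / k`
  have inv : ∀ j, 1 / u j ≤ u (j + 3) / k := by
    intro j
    rw [div_le_div_iff₀ (h.hu j) hk, one_mul, h.h3 j]
    exact h.hqq (j + 1)
  have hBk : B ≤ B / k := by
    rw [le_div_iff₀ hk]
    nlinarith [h.hk1]
  have t1 : u (m + 1) ≤ B / k := by linarith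
  have t2 : u m ≤ B / k := by
    rw [le_div_iff₀ hk]
    have i1 : u (m + 3) * u m ≤ 1 := by rw [h.h3 m]; exact h.hqq1 (m + 1)
    have i2 : k ≤ u (m + 6) * u (m + 3) := by
      have := h.h3 (m + 3)
      rw [show m + 3 + 3 = m + 6 from rfl] at this
      rw [this]; exact h.hqq (m + 4)
    calc u m * k ≤ u m * (u (m + 6) * u (m + 3)) := mul_le_mul_of_nonneg_left i2 p0.le
      _ = (u (m + 3) * u m) * u (m + 6) := by ring
      _ ≤ 1 * u (m + 6) := mul_le_mul_of_nonneg_right i1 (h.hu _).le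
      _ ≤ B := by linarith
  have t3 : u m / u (m + 1) ≤ B / k := by
    have i1 : u m / u (m + 1) ≤ 1 / u (m + 2) := by
      rw [div_le_div_iff₀ p1 p2, one_mul]
      have := h.h1 m
      have := mul_le_of_le_one_left p1.le (h.hqu (m + 1))
      linarith
    have i2 := inv (m + 2)
    have i3 : u (m + 2 + 3) / k ≤ B / k := div_le_div_of_nonneg_right b5 hk.le
    linarith
  have t4 : q m / u (m + 1) ≤ B / k := by
    have i1 : q m / u (m + 1) ≤ 1 / u (m + 1) := div_le_div_of_nonneg_right (h.hqu m) p1.le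
    have i2 := inv (m + 1)
    have i3 : u (m + 1 + 3) / k ≤ B / k := div_le_div_of_nonneg_right b4 hk.le
    linarith
  have t5 : k / (q m * u m) ≤ B / k := by
    have i1 : k / (q m * u m) ≤ 1 / u m := by
      rw [div_le_div_iff₀ (mul_pos (h.hq0 m) p0) p0]
      have := mul_le_mul_of_nonneg_right (h.hql m) p0.le
      linarith
    have i2 := inv m
    have i3 : u (m + 3) / k ≤ B / k := div_le_div_of_nonneg_right b3 hk.le
    linarith
  have t6 : u (m + 1) / u m ≤ B / k := by
    have i1 : u (m + 1) / u m ≤ u (m + 2) / k := by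
      rw [div_le_div_iff₀ p0 hk]
      have := h.h1 m
      have := mul_le_mul_of_nonneg_right (h.hql (m + 1)) p1.le
      linarith
    have i3 : u (m + 2) / k ≤ B / k := div_le_div_of_nonneg_right b2 hk.le
    linarith
  have : 6 * B / k = B / k + B / k + B / k + B / k + B / k + B / k := by ring
  rw [this]
  unfold Z
  linarith

theorem Orb.Y_le_Z (h : Orb C k u q) (n : ℕ) : Y k u q n ≤ Z k u q (n + 3) := by
  have := h.P_nonneg n
  have := h.P_nonneg (n + 1)
  have := h.P_nonneg (n + 2)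
  unfold Y
  linarith

/-- One round of growth. -/
theorem Orb.round (h : Orb C k u q) (n : ℕ) {A : ℝ}
    (hA1 : 6 ≤ k * A) (hA2 : 11 * K C k + 1 ≤ κ C k * (Real.sqrt (k * A / 6) / (1 + C)))
    (hY : A < Y k u q n) : Y k u q n + 1 ≤ Y k u q (n + 11) := by
  have hk := h.hk0
  have hC := h.hC
  have hκ := h.κ_pos
  have hK := h.K_pos
  -- a large value exists
  have hex : ∃ j ∈ Finset.Icc 1 6, k * A / 6 < u (n + 3 + j) := by
    by_contra hno
    push Not at hno
    have h1 := h.Z_le (n + 3) hno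
    have h2 := h.Y_le_Z n
    have h3 : 6 * (k * A / 6) / k = A := by field_simp
    linarith
  obtain ⟨j, hj, hju⟩ := hex
  rw [Finset.mem_Icc] at hj
  obtain ⟨hj1, hj6⟩ := hj
  have h1 : 1 ≤ u (n + 3 + j) := by
    have : 1 ≤ k * A / 6 := by linarith
    linarith
  have g := h.gain (n + 3 + j) h1
  have g2 : κ C k * (Real.sqrt (k * A / 6) / (1 + C)) ≤
      κ C k * (Real.sqrt (u (n + 3 + j)) / (1 + C)) := by
    apply mul_le_mul_of_nonneg_left _ hκ.le
    apply div_le_div_of_nonneg_right _ (by positivity)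
    exact Real.sqrt_le_sqrt hju.le
  have m1 := h.Y_mono_add n (3 + j)
  have m2 := h.Y_mono_add (n + 3 + j + 2) (6 - j)
  have e1 : n + (3 + j) = n + 3 + j := by ring
  have e2 : n + 3 + j + 2 + (6 - j) = n + 11 := by omega
  rw [e1] at m1
  rw [e2] at m2
  have c1 : ((3 + j : ℕ) : ℝ) + ((6 - j : ℕ) : ℝ) = 9 := by
    rw [← Nat.cast_add]
    have : 3 + j + (6 - j) = 9 := by omega
    rw [this]; norm_num
  have c2 : ((3 + j : ℕ) : ℝ) * K C k + ((6 - j : ℕ) : ℝ) * K C k = 9 * K C k := by
    rw [← add_mul, c1]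
  linarith

/-- An orbit whose energy is large at the start is unbounded. -/
theorem Orb.unbounded (h : Orb C k u q) {A : ℝ}
    (hA1 : 6 ≤ k * A) (hA2 : 11 * K C k + 1 ≤ κ C k * (Real.sqrt (k * A / 6) / (1 + C)))
    (hY : A < Y k u q 0) : ¬ BddAbove (Set.range u) := by
  rintro ⟨M, hM⟩
  have hM' : ∀ n, u n ≤ M := fun n => hM ⟨n, rfl⟩
  have hgrow : ∀ i : ℕ, Y k u q 0 + i ≤ Y k u q (11 * i) := by
    intro i
    induction i with
    | zero => simp
    | succ i ih =>
      have h1 : A < Y k u q (11 * i) := by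
        have : (0 : ℝ) ≤ i := Nat.cast_nonneg i
        linarith
      have h2 := h.round (11 * i) hA1 hA2 h1
      have e : 11 * (i + 1) = 11 * i + 11 := by ring
      rw [e]
      push_cast
      linarith
  obtain ⟨i, hi⟩ := exists_nat_gt (6 * M / k - Y k u q 0)
  have h1 := hgrow i
  have h2 := h.Y_le_Z (11 * i)
  have h3 := h.Z_le (11 * i + 3) (B := M) (fun j _ => hM' _)
  linarith

end Pool.Agent.Lib.MP_db9acb_an
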